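import Pool.Agent.H357R2.SI.RegularSum

open Filter Topology
open Pool.Agent.H357R2.SI

namespace Pool.Agent.Results.MP_31d0eb_nt.BoundedScales

open Classical in
/-- For every `δ > 0` there is `J` such that for all large `N` the number of pairs `(n, j)` with
`n < N`, `log N ≤ 2^j ≤ N`, for which the primes are not `δ`-equidistributed inside
`(n, n + 2^j]`, is at most `J N`. Here `δ`-equidistributed means
`|π(n, u) - (u / 2^j) π(n, 2^j)| ≤ δ (2^j / log N + π(n, 2^j))` for all real `0 ≤ u ≤ 2^j`. -/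
theorem result : ∀ δ : ℝ, 0 < δ → ∃ J : ℝ, ∀ᶠ N : ℕ in atTop,
    ∑ j ∈ (Finset.range N).filter (fun j : ℕ => Real.log N ≤ 2 ^ j ∧ 2 ^ j ≤ N),
      (((Finset.range N).filter (fun n : ℕ => ¬ ∀ u : ℝ, 0 ≤ u → u ≤ 2 ^ j →
        |(piS n u : ℝ) - u / 2 ^ j * piS n (2 ^ j)| ≤
          δ * (2 ^ j / Real.log N + piS n (2 ^ j)))).card : ℝ) ≤ J * N :=
  fun δ hδ => regularity_sum δ hδ

end Pool.Agent.Results.MP_31d0eb_nt.BoundedScales
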