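import Pool.Agent.H357R2.SI.TwoSided

open Filter Topology
open Pool.Agent.H357R2.SI

namespace Pool.Agent.Results.MP_31d0eb_nt.LadderPrimes

open Classical in
/-- For every `0 < μ < 1` at least a proportion `1 - μ - o(1)` of the primes `p < N` satisfy,
simultaneously for all real `0 < H ≤ p`, `1 + π(p, H) ≥ μ H / log p`. -/
theorem result : ∀ μ : ℝ, 0 < μ → μ < 1 → ∀ κ : ℝ, 0 < κ → ∀ᶠ N : ℕ in atTop,
    (1 - μ - κ) * Nat.primeCounting N ≤ (((Finset.range N).filter (fun p : ℕ => p.Prime ∧
      ∀ H : ℝ, 0 < H → H ≤ p → μ * H / Real.log p ≤ 1 + piS p H)).card : ℝ) := by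
  intro μ hμ0 hμ1 κ hκ
  set η : ℝ := min ((1 - μ) / 100) (κ / 100) with hη
  have hη0 : 0 < η := lt_min (by linarith) (by linarith)
  have hημ : η ≤ (1 - μ) / 100 := min_le_left _ _
  have hηκ : η ≤ κ / 100 := min_le_right _ _
  have hη1 : η ≤ 1 / 100 := by linarith
  set e : ℝ := (1 - μ) * η ^ 2 / 10 with he
  have he0 : 0 < e := by
    have : 0 < 1 - μ := by linarith
    positivity
  have heη : e ≤ η := by
    rw [he]
    have h1 : η ^ 2 ≤ η := by nlinarith
    nlinarith
  have he1 : e < 1 := by linarith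
  obtain ⟨X₁, hX₁3, hX₁⟩ := pnt e he0
  obtain ⟨X₂, hX₂3, hX₂⟩ := pc_window_lower e he0 he1
  have hNlim : Tendsto (fun N : ℕ => η * (N : ℝ)) atTop atTop :=
    (tendsto_natCast_atTop_atTop).const_mul_atTop hη0
  have hXlim : Tendsto (fun N : ℕ => ⌊η * (N : ℝ)⌋₊) atTop atTop :=
    tendsto_nat_floor_atTop.comp hNlim
  have hlogN : Tendsto (fun N : ℕ => Real.log (N : ℝ)) atTop atTop :=
    Real.tendsto_log_atTop.comp tendsto_natCast_atTop_atTop
  have hNr : Tendsto (fun N : ℕ => (N : ℝ)) atTop atTop := tendsto_natCast_atTop_atTop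
  have hlogsmall : ∀ᶠ N : ℕ in atTop, Real.log N ≤ η ^ 2 * N := by
    have h := Real.isLittleO_log_id_atTop.bound (by positivity : (0 : ℝ) < η ^ 2)
    have h2 := hNr.eventually h
    filter_upwards [h2, eventually_ge_atTop 1] with N hN hN1
    have hN1' : (1 : ℝ) ≤ N := by exact_mod_cast hN1
    rwa [Real.norm_of_nonneg (Real.log_nonneg hN1'), id, Real.norm_of_nonneg (by linarith)] at hN
  filter_upwards [hXlim.eventually_ge_atTop (max X₁ X₂), hNlim.eventually_ge_atTop 2,
    hlogN.eventually_ge_atTop (Real.log (2 / η) / η), hlogN.eventually_ge_atTop 2,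
    hNr.eventually_ge_atTop (4 / ((1 - μ) * η ^ 2)), hlogsmall]
    with N hXN hN2 hLN hL2 hNbig hlogs
  set X : ℕ := ⌊η * (N : ℝ)⌋₊ with hX
  have hX1 : X₁ ≤ X := (le_max_left _ _).trans hXN
  have hX2 : X₂ ≤ X := (le_max_right _ _).trans hXN
  have hX3 : 3 ≤ X := hX₁3.trans hX1
  have hNpos : (0 : ℝ) < N := by
    by_contra h
    have : (N : ℝ) ≤ 0 := not_lt.mp h
    nlinarith
  have hXle : (X : ℝ) ≤ η * N := Nat.floor_le (by positivity)
  have hXN' : (X : ℝ) < N := by nlinarith
  have hXNn : X < N := by exact_mod_cast hXN'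
  have hXge : η * N / 2 ≤ X := by
    have := Nat.lt_floor_add_one (η * (N : ℝ))
    rw [← hX] at this
    linarith
  have hXr : (3 : ℝ) ≤ X := by exact_mod_cast hX3
  set L : ℝ := Real.log N with hL
  set ℓ : ℝ := Real.log X with hℓ
  have hℓ0 : 0 < ℓ := Real.log_pos (by linarith)
  have hL0 : 0 < L := Real.log_pos (by linarith)
  have hℓL : ℓ ≤ L := Real.log_le_log (by linarith) hXN'.le
  have hratio : (1 - η) * L ≤ ℓ := by
    have h1 : Real.log (η * N / 2) ≤ ℓ := Real.log_le_log (by positivity) hXge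
    have h2 : Real.log (η * N / 2) = L - Real.log (2 / η) := by
      rw [show η * (N : ℝ) / 2 = N / (2 / η) by field_simp, Real.log_div (by positivity)
        (by positivity)]
    rw [div_le_iff₀ hη0] at hLN
    nlinarith
  set K : ℕ := ⌊η ^ 2 * (N : ℝ)⌋₊ with hK
  have hKle : (K : ℝ) ≤ η ^ 2 * N := Nat.floor_le (by positivity)
  have hη2 : η ^ 2 ≤ η / 100 := by nlinarith
  set c : ℝ := μ / ℓ with hc
  have hc0 : 0 < c := by positivity
  set G := (Finset.Ico X N).filter (fun n => ∀ H : ℕ, 1 ≤ H →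
      H ≤ K → c * H ≤ pcl n (n + H)) with hG
  have hgc := gc_lower c hc0 K (N - X) X N rfl hXNn.le
  rw [← hG] at hgc
  have hpiN := (hX₁ N (hX1.trans hXNn.le)).1
  have hpcl : (Nat.primeCounting N : ℝ) - 4 * η * N / L - 1 ≤ pcl X N := by
    have h1 := pc_le_pcl_add_one hXNn
    rw [pc_eq_sub hXNn.le] at h1
    have h3 := (hX₁ X hX1).2
    have h4 : (1 + e) * (X : ℝ) / Real.log X ≤ 4 * η * N / L := by
      have h5 : L / 2 ≤ ℓ := by nlinarith
      calc (1 + e) * (X : ℝ) / Real.log X
          ≤ 2 * (η * N) / (L / 2) := by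
            apply div_le_div₀ (by positivity) _ (by positivity) h5
            apply mul_le_mul (by linarith) hXle (by positivity) (by norm_num)
        _ = 4 * η * N / L := by field_simp; ring
    linarith
  have hcb : c * ((N : ℝ) - X + K) ≤ (μ + 3 * η) * N / L := by
    have h1 : (N : ℝ) - X + K ≤ (1 + η ^ 2) * N := by
      have : (0 : ℝ) ≤ (X : ℝ) := Nat.cast_nonneg _
      linarith
    calc c * ((N : ℝ) - X + K) ≤ c * ((1 + η ^ 2) * N) := by gcongr
      _ = μ * (1 + η ^ 2) * N / ℓ := by rw [hc]; ring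
      _ ≤ (μ + 3 * η) * N / L := by
        rw [div_le_div_iff₀ hℓ0 hL0]
        have h2 : μ * (1 + η ^ 2) ≤ (μ + 3 * η) * (1 - η) := by
          have h3 : μ * η ^ 2 ≤ η ^ 2 := by nlinarith [sq_nonneg η]
          have h4 : μ * η ≤ η := by nlinarith
          nlinarith
        calc μ * (1 + η ^ 2) * N * L ≤ (μ + 3 * η) * (1 - η) * N * L := by gcongr
          _ = (μ + 3 * η) * N * ((1 - η) * L) := by ring
          _ ≤ (μ + 3 * η) * N * ℓ := by
            apply mul_le_mul_of_nonneg_left hratio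
            positivity
  have hGcard : (1 - μ - κ) * Nat.primeCounting N ≤ G.card := by
    have h1 : (1 : ℝ) ≤ η * N / L := by
      rw [le_div_iff₀ hL0]
      have : η ^ 2 * N ≤ η * N := by nlinarith
      linarith
    -- N / L ≤ (1 + 2 η) π(N)
    have h2 : (N : ℝ) / L ≤ (1 + 2 * η) * Nat.primeCounting N := by
      have h3 : (1 - e) * N / Real.log N = (1 - e) * (N / L) := by rw [mul_div_assoc]
      rw [h3] at hpiN
      have h4 : 1 ≤ (1 + 2 * η) * (1 - e) := by nlinarith
      have h5 : 0 ≤ (N : ℝ) / L := by positivity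
      calc (N : ℝ) / L = 1 * (N / L) := by ring
        _ ≤ (1 + 2 * η) * (1 - e) * (N / L) := mul_le_mul_of_nonneg_right h4 h5
        _ = (1 + 2 * η) * ((1 - e) * (N / L)) := by ring
        _ ≤ (1 + 2 * η) * Nat.primeCounting N := mul_le_mul_of_nonneg_left hpiN (by linarith)
    have h6 : (μ + 3 * η) * N / L + 4 * η * N / L + η * N / L = (μ + 8 * η) * (N / L) := by ring
    have h7 : (μ + 8 * η) * (N / L) ≤ (μ + 8 * η) * ((1 + 2 * η) * Nat.primeCounting N) :=
      mul_le_mul_of_nonneg_left h2 (by positivity)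
    have h8 : (μ + 8 * η) * (1 + 2 * η) ≤ μ + κ := by nlinarith
    have h9 : (0 : ℝ) ≤ Nat.primeCounting N := Nat.cast_nonneg _
    have h10 : (μ + 8 * η) * ((1 + 2 * η) * Nat.primeCounting N) ≤
        (μ + κ) * Nat.primeCounting N := by
      rw [← mul_assoc]
      exact mul_le_mul_of_nonneg_right h8 h9
    linarith
  refine hGcard.trans ?_
  have hsub : G ⊆ (Finset.range N).filter (fun p : ℕ => p.Prime ∧
      ∀ H : ℝ, 0 < H → H ≤ p → μ * H / Real.log p ≤ 1 + piS p H) := by
    intro g hg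
    rw [hG, Finset.mem_filter, Finset.mem_Ico] at hg
    obtain ⟨⟨hgX, hgN⟩, hg2⟩ := hg
    rw [Finset.mem_filter, Finset.mem_range]
    have hK1 : 1 ≤ K := by
      rw [hK]
      apply Nat.le_floor
      push_cast
      linarith
    have hgp : g.Prime := by
      have h1 := hg2 1 le_rfl hK1
      by_contra hnp
      have h2 : pcl g (g + 1) = 0 := by
        unfold pcl
        rw [Nat.Ico_succ_singleton, Finset.filter_singleton, if_neg hnp]
        rfl
      rw [h2] at h1
      push_cast at h1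
      linarith
    refine ⟨hgN, hgp, ?_⟩
    intro H hH0 hHg
    have hgXr : (X : ℝ) ≤ g := by exact_mod_cast hgX
    have hgNr : (g : ℝ) ≤ N := by exact_mod_cast hgN.le
    have hlogg : ℓ ≤ Real.log g := Real.log_le_log (by linarith) hgXr
    have hlogg0 : 0 < Real.log g := lt_of_lt_of_le hℓ0 hlogg
    rw [piS_nat g H hH0.le]
    set h : ℕ := ⌊H⌋₊ with hh
    have hhle : (h : ℝ) ≤ H := Nat.floor_le hH0.le
    have hhlt : H < h + 1 := Nat.lt_floor_add_one H
    rcases Nat.lt_or_ge K (h + 1) with hcase | hcase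
    · -- long windows
      have h1 : η ^ 2 * N < ((h + 1 : ℕ) : ℝ) := (Nat.floor_lt (by positivity)).mp hcase
      push_cast at h1
      have hhm : h ≤ g := by
        have : (h : ℝ) ≤ g := hhle.trans hHg
        exact_mod_cast this
      have h3 := hX₂ g h (hX2.trans hgX) hhm
      rw [div_le_iff₀ hlogg0]
      have h4 : 5 * e * g ≤ 5 * e * N := by gcongr
      have h7 : 5 * e * N = (1 - μ) * (η ^ 2 * N) / 2 := by rw [he]; ring
      have h6 : 2 ≤ (1 - μ) * (η ^ 2 * N) / 2 := by
        have hpos : 0 < (1 - μ) * η ^ 2 := by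
          have : 0 < 1 - μ := by linarith
          positivity
        rw [div_le_iff₀ hpos] at hNbig
        linarith
      have h8 : (1 - μ) * (η ^ 2 * N) ≤ (1 - μ) * (h + 1) :=
        mul_le_mul_of_nonneg_left h1.le (by linarith)
      have h9 : μ * H ≤ μ * (h + 1) := mul_le_mul_of_nonneg_left hhlt.le hμ0.le
      have h10 : (1 : ℝ) ≤ Real.log g := by nlinarith
      nlinarith
    · -- short windows
      have h1 := hg2 (h + 1) (by omega) hcase
      have h2 : (pcl g (g + (h + 1)) : ℝ) ≤ 1 + pc g (g + h) := by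
        have h3 : pcl g (g + (h + 1)) ≤ 1 + pc g (g + h) := by
          unfold pcl pc
          have h4 : (Finset.Ico g (g + (h + 1))).filter Nat.Prime ⊆
              insert g ((Finset.Ioc g (g + h)).filter Nat.Prime) := by
            intro x hx
            rw [Finset.mem_filter, Finset.mem_Ico] at hx
            rw [Finset.mem_insert, Finset.mem_filter, Finset.mem_Ioc]
            by_cases h5 : x = g
            · exact Or.inl h5
            · exact Or.inr ⟨by omega, hx.2⟩
          have h5 := (Finset.card_le_card h4).trans (Finset.card_insert_le _ _)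
          omega
        exact_mod_cast h3
      refine le_trans ?_ (h1.trans h2)
      rw [hc, div_mul_eq_mul_div, div_le_div_iff₀ hlogg0 hℓ0]
      push_cast
      calc μ * H * ℓ ≤ μ * (h + 1) * ℓ := by gcongr
        _ ≤ μ * (h + 1) * Real.log g := by
          apply mul_le_mul_of_nonneg_left hlogg
          positivity
  exact_mod_cast Finset.card_le_card hsub

end Pool.Agent.Results.MP_31d0eb_nt.LadderPrimes
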