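import Pool.Agent.H357R2.SI.Pareto

open Filter Topology
open Pool.Agent.H357R2.SI

namespace Pool.Agent.Results.MP_31d0eb_nt.ParetoLaw

open Classical in
/-- For every real `lam > 1` the set of natural numbers `n` such that
`π(n, H) ≤ lam * H / log n` holds simultaneously for all real `0 < H ≤ n` has natural density
exactly `1 - 1 / lam`. -/
theorem result : ∀ lam : ℝ, 1 < lam →
    Tendsto (fun N : ℕ => (((Finset.range N).filter (fun n : ℕ =>
      ∀ H : ℝ, 0 < H → H ≤ n → (piS n H : ℝ) ≤ lam * H / Real.log n)).card : ℝ) / N)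
      atTop (𝓝 (1 - 1 / lam)) := by
  intro lam hlam
  have h := (pareto lam hlam).const_sub 1
  refine h.congr' ?_
  filter_upwards [eventually_gt_atTop 0] with N hN
  have hN0 : (N : ℝ) ≠ 0 := by positivity
  have h1 := Finset.card_filter_add_card_filter_not (s := Finset.range N)
    (fun n : ℕ => ∀ H : ℝ, 0 < H → H ≤ n → (piS n H : ℝ) ≤ lam * H / Real.log n)
  rw [Finset.card_range] at h1
  have h2 : (((Finset.range N).filter (fun n : ℕ =>
      ∀ H : ℝ, 0 < H → H ≤ n → (piS n H : ℝ) ≤ lam * H / Real.log n)).card : ℝ) +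
      badc lam N = N := by
    unfold badc
    exact_mod_cast h1
  rw [eq_div_iff hN0, sub_mul, div_mul_cancel₀ _ hN0, one_mul]
  linarith

end Pool.Agent.Results.MP_31d0eb_nt.ParetoLaw
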